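import Pool.Agent.helper99.WN.SpecC

/-!
# MP_5c1f29_al, row wn:NM
-/

set_option autoImplicit false

open Classical

namespace Pool.Agent.WN

open Pool.Agent.NE

namespace H94NM

theorem inv_upd {G : Type} [Group G] {k : ℕ} (g : Fin k → G) (i : Fin k) (a : G) :
    NielsenEquiv (Function.update g i a) (Function.update g i a⁻¹) := by
  have h := Step.inv (Function.update g i a) i
  rw [Function.update_self, Function.update_idem] at h
  exact NielsenEquiv.of_step h

theorem both {G : Type} [Group G] {k : ℕ} (g : Fin k → G) (i j : Fin k) (hij : j ≠ i) (e d : ℤ) :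
    NielsenEquiv g (Function.update g i ((g j) ^ e * g i * (g j) ^ d)) := by
  have hj : g j ∈ Subgroup.closure (g '' {l | l ≠ i}) :=
    Subgroup.subset_closure (Set.mem_image_of_mem g hij)
  have hx : ∀ m : ℤ, (g j) ^ m ∈ Subgroup.closure (g '' {l | l ≠ i}) := fun m =>
    Subgroup.zpow_mem _ hj m
  have h0 : Function.update g i (g i) = g := Function.update_eq_self i g
  have h1 := equiv_update_mul g i _ (hx d) (g i)
  rw [h0] at h1
  have h2 := inv_upd g i (g i * (g j) ^ d)
  have h3 := equiv_update_mul g i _ (hx (-e)) (g i * (g j) ^ d)⁻¹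
  have h4 := inv_upd g i ((g i * (g j) ^ d)⁻¹ * (g j) ^ (-e))
  have h5 : ((g i * (g j) ^ d)⁻¹ * (g j) ^ (-e))⁻¹ = (g j) ^ e * g i * (g j) ^ d := by
    rw [mul_inv_rev, inv_inv, zpow_neg, inv_inv, mul_assoc]
  rw [h5] at h4
  exact ((h1.trans h2).trans h3).trans h4

end H94NM

theorem NM : NM_stmt := by
  intro G _ k t j ε δ
  have key : ∀ s : Finset (Fin k), j ∉ s →
      NielsenEquiv t (fun i => if i ∈ s then (t j) ^ ε i * t i * (t j) ^ δ i else t i) := by
    intro s
    induction s using Finset.induction_on with
    | empty =>
      intro _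
      have h : (fun i => if i ∈ (∅ : Finset (Fin k)) then (t j) ^ ε i * t i * (t j) ^ δ i
          else t i) = t := by
        funext i
        rw [if_neg (Finset.notMem_empty i)]
      rw [h]
      exact NielsenEquiv.refl t
    | insert i₀ s hi₀ ih =>
      intro hj
      have hj1 : j ≠ i₀ := fun h => hj (by rw [h]; exact Finset.mem_insert_self _ _)
      have hj2 : j ∉ s := fun h => hj (Finset.mem_insert_of_mem h)
      have h1 := ih hj2
      have h2 := H94NM.both (fun i => if i ∈ s then (t j) ^ ε i * t i * (t j) ^ δ i else t i)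
        i₀ j hj1 (ε i₀) (δ i₀)
      simp only [if_neg hj2, if_neg hi₀] at h2
      have h3 : Function.update
          (fun i => if i ∈ s then (t j) ^ ε i * t i * (t j) ^ δ i else t i) i₀
          ((t j) ^ ε i₀ * t i₀ * (t j) ^ δ i₀) =
          (fun i => if i ∈ insert i₀ s then (t j) ^ ε i * t i * (t j) ^ δ i else t i) := by
        funext i
        by_cases hi : i = i₀
        · subst hi
          rw [Function.update_self, if_pos (Finset.mem_insert_self _ _)]
        · rw [Function.update_of_ne hi]
          by_cases hs : i ∈ s
          · rw [if_pos hs, if_pos (Finset.mem_insert_of_mem hs)]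
          · rw [if_neg hs, if_neg]
            intro h
            rcases Finset.mem_insert.mp h with h | h
            · exact hi h
            · exact hs h
      rw [h3] at h2
      exact h1.trans h2
  have h1 := key (Finset.univ.erase j) (Finset.notMem_erase j _)
  have h2 := NielsenEquiv.of_step (Step.inv
    (fun i => if i ∈ Finset.univ.erase j then (t j) ^ ε i * t i * (t j) ^ δ i else t i) j)
  have h3 : Function.update
      (fun i => if i ∈ Finset.univ.erase j then (t j) ^ ε i * t i * (t j) ^ δ i else t i) j
      ((fun i => if i ∈ Finset.univ.erase j then (t j) ^ ε i * t i * (t j) ^ δ i else t i) j)⁻¹ =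
      (fun i => if i = j then (t j)⁻¹ else (t j) ^ ε i * t i * (t j) ^ δ i) := by
    funext i
    by_cases hi : i = j
    · subst hi
      rw [Function.update_self, if_pos rfl]
      simp only [Finset.notMem_erase, if_false]
    · rw [Function.update_of_ne hi, if_neg hi,
        if_pos (Finset.mem_erase.mpr ⟨hi, Finset.mem_univ i⟩)]
  rw [h3] at h2
  exact h1.trans h2

end Pool.Agent.WN
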